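import Mathlib

open Topology

namespace Pool.Agent.Results.MP_4e651d_al.ResidualOrder

universe u

variable {G : Type u} [Group G] [TopologicalSpace G]

/-- `𝒦(G)`: the closed subgroups of `G` that are generated by a compact subset. -/
def IsCG (K : Subgroup G) : Prop :=
  IsClosed (K : Set G) ∧ ∃ C : Set G, IsCompact C ∧ Subgroup.closure C = K

/-- The discrete residual `Res_G(K)`: the intersection of all open subgroups `O ≤ G` with
`kO = Ok` for every `k ∈ K`. -/
def Res (K : Subgroup G) : Subgroup G :=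
  sInf {O : Subgroup G | IsOpen (O : Set G) ∧
    ∀ k ∈ K, (fun x => k * x) '' (O : Set G) = (fun x => x * k) '' (O : Set G)}

/-- The residual order `K₁ ≼ K₂`: `K₁ ≤ Res_G(K₂)` or `K₁ = K₂`. -/
def Le (K₁ K₂ : Subgroup G) : Prop := K₁ ≤ Res K₂ ∨ K₁ = K₂

/-- `K₁ ≺ K₂`: `K₁ ≼ K₂` and `K₁ ≠ K₂`. -/
def Lt (K₁ K₂ : Subgroup G) : Prop := Le K₁ K₂ ∧ K₁ ≠ K₂

/-- The residual hierarchy: `𝒦_0 = {1}`, `𝒦_1` consists of the `K ∈ 𝒦(G)` with `Res_G(K) = 1`,
and for `1 < α` the set `𝒦_α` consists of the `K ∈ 𝒦(G)` such that each `L ∈ 𝒦(G)` with `L ≺ K`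
lies in `𝒦_β` for some `β < α`. -/
noncomputable def level (α : Ordinal.{0}) : Set (Subgroup G) :=
  open Classical in
  if α = 0 then {⊥}
  else if α = 1 then {K | IsCG K ∧ Res K = ⊥}
  else {K | IsCG K ∧ ∀ L : Subgroup G, IsCG L → Lt L K → ∃ β, ∃ _ : β < α, L ∈ level β}
termination_by α

variable (G) in
/-- The residual rank of `G` is well-defined: `𝒦(G)` is the union of the `𝒦_α`, `α < ω₁`. -/
def RankWellDefined : Prop :=
  ∀ K : Subgroup G, IsCG K → ∃ α : Ordinal.{0}, α < Ordinal.omega 1 ∧ K ∈ level α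

theorem level_zero : (level 0 : Set (Subgroup G)) = {⊥} := by
  rw [level, if_pos rfl]

theorem level_one : (level 1 : Set (Subgroup G)) = {K | IsCG K ∧ Res K = ⊥} := by
  rw [level, if_neg one_ne_zero, if_pos rfl]

theorem level_big {α : Ordinal.{0}} (h0 : α ≠ 0) (h1 : α ≠ 1) :
    (level α : Set (Subgroup G)) =
      {K | IsCG K ∧ ∀ L : Subgroup G, IsCG L → Lt L K → ∃ β, ∃ _ : β < α, L ∈ level β} := by
  rw [level, if_neg h0, if_neg h1]

/-- If `K₂ ≤ Res K₃` then `Res K₂ ≤ Res K₃`. -/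
theorem res_mono {K₂ K₃ : Subgroup G} (h : K₂ ≤ Res K₃) : Res K₂ ≤ Res K₃ := by
  refine le_sInf fun O hO => sInf_le ⟨hO.1, fun k hk => ?_⟩
  have hkO : k ∈ O := (h.trans (sInf_le hO)) hk
  ext x
  constructor
  · rintro ⟨y, hy, rfl⟩
    exact ⟨k * y * k⁻¹, O.mul_mem (O.mul_mem hkO hy) (O.inv_mem hkO), by simp⟩
  · rintro ⟨y, hy, rfl⟩
    exact ⟨k⁻¹ * (y * k), O.mul_mem (O.inv_mem hkO) (O.mul_mem hy hkO), by simp⟩

/-- van Dantzig's theorem, in the form needed here. -/
theorem exists_open [IsTopologicalGroup G] [T2Space G] [LocallyCompactSpace G]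
    [TotallyDisconnectedSpace G] (x : G) (hx : x ≠ 1) :
    ∃ H : Subgroup G, IsOpen (H : Set G) ∧ x ∉ H := by
  obtain ⟨s, hs, hs1, -⟩ := exists_compact_subset (isOpen_univ (X := G)) (Set.mem_univ (1 : G))
  have hU : IsOpen ({x}ᶜ ∩ interior s) := isOpen_compl_singleton.inter isOpen_interior
  obtain ⟨W, hW, h1W, hWU⟩ := loc_compact_Haus_tot_disc_of_zero_dim.exists_subset_of_mem_open
    (show (1 : G) ∈ {x}ᶜ ∩ interior s from ⟨fun h => hx h.symm, hs1⟩) hU
  have hWc : IsCompact W := hs.of_isClosed_subset hW.1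
    (fun y hy => interior_subset (hWU hy).2)
  obtain ⟨V, hV, hWV⟩ := compact_open_separated_mul_right hWc hW.2 subset_rfl
  let H : Subgroup G :=
    { carrier := {g | ∀ w ∈ W, w * g ∈ W ∧ w * g⁻¹ ∈ W}
      mul_mem' := by
        intro g h hg hh w hw
        refine ⟨?_, ?_⟩
        · rw [← mul_assoc]; exact (hh _ (hg w hw).1).1
        · rw [mul_inv_rev, ← mul_assoc]; exact (hg _ (hh w hw).2).2
      one_mem' := by intro w hw; simpa using hw
      inv_mem' := by
        intro g hg w hw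
        refine ⟨(hg w hw).2, ?_⟩
        rw [inv_inv]; exact (hg w hw).1 }
  refine ⟨H, ?_, fun hxH => ?_⟩
  · apply Subgroup.isOpen_of_mem_nhds (g := 1)
    have h2 : V ∩ V⁻¹ ∈ 𝓝 (1 : G) := Filter.inter_mem hV (inv_mem_nhds_one G hV)
    refine Filter.mem_of_superset h2 ?_
    rintro g ⟨hg1, hg2⟩ w hw
    exact ⟨hWV (Set.mul_mem_mul hw hg1), hWV (Set.mul_mem_mul hw hg2)⟩
  · have h3 := (hxH 1 h1W).1
    rw [one_mul] at h3
    exact (hWU h3).1 rfl

theorem res_bot [IsTopologicalGroup G] [T2Space G] [LocallyCompactSpace G]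
    [TotallyDisconnectedSpace G] : Res (⊥ : Subgroup G) = ⊥ := by
  rw [eq_bot_iff]
  intro x hx
  by_contra h
  obtain ⟨H, hH, hxH⟩ := exists_open x h
  apply hxH
  have h1 : Res (⊥ : Subgroup G) ≤ H := by
    refine sInf_le ⟨hH, fun k hk => ?_⟩
    rw [Subgroup.mem_bot] at hk
    simp [hk]
  exact h1 hx

theorem no_two_cycle [IsTopologicalGroup G] [T2Space G] [LocallyCompactSpace G]
    [TotallyDisconnectedSpace G] (α : Ordinal.{0}) :
    ∀ K L : Subgroup G, IsCG K → IsCG L → K ∈ level α → Lt K L → Lt L K → False := by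
  induction α using WellFoundedLT.induction with
  | ind α ih =>
    intro K L hK hL hKα h1 h2
    have hbot : ∀ M N : Subgroup G, Res M = ⊥ → Lt M N → Lt N M → False := by
      intro M N hM h3 h4
      rcases h4.1 with h5 | h5
      · rw [hM, le_bot_iff] at h5
        subst h5
        rcases h3.1 with h6 | h6
        · rw [res_bot, le_bot_iff] at h6
          exact h3.2 h6
        · exact h3.2 h6
      · exact h4.2 h5
    by_cases h0 : α = 0
    · subst h0
      rw [level_zero, Set.mem_singleton_iff] at hKα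
      subst hKα
      exact hbot _ _ res_bot h1 h2
    by_cases h1' : α = 1
    · subst h1'
      rw [level_one] at hKα
      exact hbot _ _ hKα.2 h1 h2
    rw [level_big h0 h1'] at hKα
    obtain ⟨β, hβ, hLβ⟩ := hKα.2 L hL h2
    exact ih β hβ L K hL hK hLβ h2 h1

/-- For every totally disconnected locally compact (Hausdorff) second countable group `G` the
residual order is reflexive and transitive on `𝒦(G)`, and if the residual rank of `G` is
well-defined then the residual order is a partial order on `𝒦(G)`. -/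
theorem result (G : Type u) [Group G] [TopologicalSpace G] [IsTopologicalGroup G] [T2Space G]
    [TotallyDisconnectedSpace G] [LocallyCompactSpace G] [SecondCountableTopology G] :
    (∀ K : Subgroup G, Le K K) ∧
    (∀ K₁ K₂ K₃ : Subgroup G, Le K₁ K₂ → Le K₂ K₃ → Le K₁ K₃) ∧
    (RankWellDefined G → IsPartialOrder {K : Subgroup G // IsCG K} (fun K L => Le K.1 L.1)) := by
  have hrefl : ∀ K : Subgroup G, Le K K := fun K => Or.inr rfl
  have htrans : ∀ K₁ K₂ K₃ : Subgroup G, Le K₁ K₂ → Le K₂ K₃ → Le K₁ K₃ := by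
    intro K₁ K₂ K₃ h1 h2
    rcases h2 with h2 | rfl
    · rcases h1 with h1 | rfl
      · exact Or.inl (h1.trans (res_mono h2))
      · exact Or.inl h2
    · exact h1
  refine ⟨hrefl, htrans, fun h => ?_⟩
  exact
    { refl := fun K => hrefl K.1
      trans := fun K L M h1 h2 => htrans _ _ _ h1 h2
      antisymm := fun K L h1 h2 => by
        by_contra hne
        have hne' : K.1 ≠ L.1 := fun h3 => hne (Subtype.ext h3)
        obtain ⟨α, -, hα⟩ := h K.1 K.2
        exact no_two_cycle α K.1 L.1 K.2 L.2 hα ⟨h1, hne'⟩ ⟨h2, hne'.symm⟩ }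

end Pool.Agent.Results.MP_4e651d_al.ResidualOrder
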